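import Pool.Agent.H43.PS.H91.EHA.SwI
import Pool.Agent.H43.PS.M26

/-!
# Primes in progressions to small moduli

Orthogonality of characters mod `c` (Mathlib `DirichletCharacter.sum_char_inv_mul_char_eq`; compare
`PK/DiA.lean`): `psiA y c a = (1/φ(c)) ∑_χ χ⁻¹(a) ∑_{n≤y} Λ(n)χ(n)`.  Principal character: `pnt` minus
`∑_{n ≤ y, (n,c)>1} Λ(n) ≤ (log x)²`-type (`DiA_psi_noncoprime`).  Other characters: replace by the primitive
character (error again `∑_{(n,c)>1} Λ(n)`), `siegel_walfisz` for `y ≥ √x` (then `log y ≥ (log x)/2`), trivial bound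
`y log y` for `y < √x`.
-/

set_option autoImplicit false

namespace Pool.Agent.H91.EHA

open Finset
open Pool.Agent.H91.PK

theorem swk1_Lam_nonneg (n : ℕ) : 0 ≤ Lam n := ArithmeticFunction.vonMangoldt_nonneg

/-- The twisted sum over prime powers. -/
noncomputable def swk1S (y : ℕ) {c : ℕ} (χ : DirichletCharacter ℂ c) : ℂ :=
  ∑ n ∈ Icc 1 y, ((Lam n : ℝ) : ℂ) * χ (n : ZMod c)

/-- The mass of the `n` not coprime to `c`. -/
noncomputable def swk1E (y c : ℕ) : ℝ :=
  ∑ n ∈ (Icc 1 y).filter (fun n => ¬ Nat.Coprime n c), Lam n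

theorem swk1E_nonneg (y c : ℕ) : 0 ≤ swk1E y c := sum_nonneg fun _ _ => swk1_Lam_nonneg _

theorem swk1E_le {y c : ℕ} (hy : 1 ≤ y) (hc : 1 ≤ c) : swk1E y c ≤ 2 * Real.log c * Real.log y := by
  have h1 : swk1E y c ≤ (c.primeFactors.card : ℝ) * Real.log y := DiA_psi_noncoprime hy hc
  have h2 := DiA_omega_le hc
  have h4 : (0.6931471803 : ℝ) < Real.log 2 := Real.log_two_gt_d9
  have h5 : (0 : ℝ) ≤ c.primeFactors.card := Nat.cast_nonneg _
  have h6 : (c.primeFactors.card : ℝ) * 0.6931471803 ≤ Real.log c := by nlinarith only [h2, h4]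
  have h7 : (c.primeFactors.card : ℝ) ≤ 2 * Real.log c := by nlinarith only [h6]
  have hL : 0 ≤ Real.log y := Real.log_natCast_nonneg y
  exact h1.trans (mul_le_mul_of_nonneg_right h7 hL)

/-- orthogonality -/
theorem swk1_orth {y c a : ℕ} (hc : 1 ≤ c) (ha : Nat.Coprime a c) :
    (c.totient : ℂ) * ((psiA y c a : ℝ) : ℂ)
      = ∑ χ : DirichletCharacter ℂ c, χ ((a : ZMod c)⁻¹) * swk1S y χ := by
  have : NeZero c := ⟨by omega⟩
  have hu : IsUnit (a : ZMod c) := (ZMod.isUnit_iff_coprime a c).mpr ha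
  unfold swk1S psiA
  simp only [mul_sum]
  rw [sum_comm]
  rw [Complex.ofReal_sum, mul_sum, sum_filter]
  refine sum_congr rfl fun n hn => ?_
  rw [mem_Icc] at hn
  have h1 : ∀ χ : DirichletCharacter ℂ c,
      χ ((a : ZMod c)⁻¹) * (((Lam n : ℝ) : ℂ) * χ (n : ZMod c))
      = (χ ((a : ZMod c)⁻¹) * χ (n : ZMod c)) * ((Lam n : ℝ) : ℂ) := by
    intro χ; ring
  simp only [h1]
  rw [← sum_mul, DirichletCharacter.sum_char_inv_mul_char_eq ℂ hu]
  have hiff : ((a : ZMod c) = (n : ZMod c)) ↔ n ≡ a [MOD c] := by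
    rw [eq_comm]
    exact ZMod.natCast_eq_natCast_iff n a c
  by_cases h : n ≡ a [MOD c]
  · rw [if_pos h, if_pos (hiff.mpr h)]
  · rw [if_neg h, if_neg (fun h' => h (hiff.mp h'))]
    simp

theorem swk1_S_sub {y c : ℕ} (χ : DirichletCharacter ℂ c) :
    ‖swk1S y χ‖ ≤ ‖swk1S y χ.primitiveCharacter‖ + swk1E y c := by
  have h1 : swk1S y χ.primitiveCharacter - swk1S y χ
      = ∑ n ∈ (Icc 1 y).filter (fun n => ¬ Nat.Coprime n c),
        ((Lam n : ℝ) : ℂ) * χ.primitiveCharacter (n : ZMod χ.conductor) := by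
    unfold swk1S
    rw [← sum_sub_distrib, sum_filter]
    refine sum_congr rfl fun n _ => ?_
    by_cases h : Nat.Coprime n c
    · rw [if_neg (not_not.mpr h)]
      simp only [DiA_prim_eq χ h, sub_self]
    · rw [if_pos h]
      simp only [DiA_char_zero χ h, mul_zero, sub_zero]
  have h2 : ‖swk1S y χ.primitiveCharacter - swk1S y χ‖ ≤ swk1E y c := by
    rw [h1]
    refine (norm_sum_le _ _).trans ?_
    refine sum_le_sum fun n _ => ?_
    rw [norm_mul, Complex.norm_real, Real.norm_of_nonneg (swk1_Lam_nonneg n)]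
    calc Lam n * ‖χ.primitiveCharacter (n : ZMod χ.conductor)‖ ≤ Lam n * 1 :=
          mul_le_mul_of_nonneg_left (DiA_norm_char_le _ _) (swk1_Lam_nonneg n)
      _ = Lam n := mul_one _
  calc ‖swk1S y χ‖ = ‖swk1S y χ.primitiveCharacter
        - (swk1S y χ.primitiveCharacter - swk1S y χ)‖ := by congr 1; ring
    _ ≤ _ := (norm_sub_le _ _).trans (by linarith only [h2])

theorem swk1_S_one {y c : ℕ} :
    swk1S y (1 : DirichletCharacter ℂ c)
      = (((∑ n ∈ Icc 1 y, Lam n) - swk1E y c : ℝ) : ℂ) := by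
  unfold swk1S swk1E
  rw [sum_filter, ← sum_sub_distrib, Complex.ofReal_sum]
  refine sum_congr rfl fun n _ => ?_
  by_cases h : Nat.Coprime n c
  · rw [if_neg (not_not.mpr h)]
    have : (1 : DirichletCharacter ℂ c) (n : ZMod c) = 1 :=
      MulChar.one_apply ((ZMod.isUnit_iff_coprime n c).mpr h)
    simp only [this]
    push_cast
    ring
  · rw [if_pos h]
    simp only [DiA_char_zero _ h]
    simp

/-- The main inequality. -/
theorem swk1_main {y c a : ℕ} (hc : 1 ≤ c) (ha : Nat.Coprime a c) {D : ℝ} (hD : 0 ≤ D)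
    (h : ∀ χ : DirichletCharacter ℂ c, χ ≠ 1 → ‖swk1S y χ.primitiveCharacter‖ ≤ D) :
    |psiA y c a - (∑ n ∈ Icc 1 y, Lam n) / c.totient| ≤ swk1E y c + D := by
  classical
  have : NeZero c := ⟨by omega⟩
  have hφ : 0 < c.totient := Nat.totient_pos.mpr hc
  have hφR : (0 : ℝ) < c.totient := by exact_mod_cast hφ
  have hφC : (c.totient : ℂ) ≠ 0 := by exact_mod_cast hφ.ne'
  set E := swk1E y c with hE
  set P := ∑ n ∈ Icc 1 y, Lam n with hP
  have hE0 : 0 ≤ E := swk1E_nonneg _ _
  have hNch : Nch c = univ.erase (1 : DirichletCharacter ℂ c) := by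
    ext χ; rw [mem_Nch]; simp
  have horth := swk1_orth (y := y) hc ha
  have hone : (1 : DirichletCharacter ℂ c) ((a : ZMod c)⁻¹) = 1 := by
    refine MulChar.one_apply ?_
    have hu : IsUnit (a : ZMod c) := (ZMod.isUnit_iff_coprime a c).mpr ha
    obtain ⟨u, hu⟩ := hu
    rw [← hu, ZMod.inv_coe_unit]
    exact Units.isUnit _
  rw [← Finset.add_sum_erase univ _ (mem_univ (1 : DirichletCharacter ℂ c)), ← hNch, hone,
    one_mul, swk1_S_one, ← hP, ← hE] at horth
  have h1 : ((c.totient * psiA y c a - P : ℝ) : ℂ)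
      = - ((E : ℝ) : ℂ) + ∑ χ ∈ Nch c, χ ((a : ZMod c)⁻¹) * swk1S y χ := by
    push_cast
    rw [horth]
    push_cast
    ring
  have hcard : (Nch c).card + 1 = c.totient := by
    rw [hNch, card_erase_of_mem (mem_univ _), card_univ, ← Nat.card_eq_fintype_card,
      DirichletCharacter.card_eq_totient_of_hasEnoughRootsOfUnity ℂ c]
    omega
  have hcardR : ((Nch c).card : ℝ) + 1 = c.totient := by exact_mod_cast hcard
  have h2 : |(c.totient : ℝ) * psiA y c a - P| ≤ (c.totient : ℝ) * (E + D) := by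
    have h3 : |(c.totient : ℝ) * psiA y c a - P|
        = ‖((c.totient * psiA y c a - P : ℝ) : ℂ)‖ := by
      rw [Complex.norm_real, Real.norm_eq_abs]
    rw [h3, h1]
    refine (norm_add_le _ _).trans ?_
    rw [norm_neg, Complex.norm_real, Real.norm_of_nonneg hE0]
    have h4 : ‖∑ χ ∈ Nch c, χ ((a : ZMod c)⁻¹) * swk1S y χ‖
        ≤ ∑ χ ∈ Nch c, (D + E) := by
      refine (norm_sum_le _ _).trans (sum_le_sum fun χ hχ => ?_)
      rw [norm_mul]
      calc ‖χ ((a : ZMod c)⁻¹)‖ * ‖swk1S y χ‖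
          ≤ 1 * ‖swk1S y χ‖ :=
            mul_le_mul_of_nonneg_right (DiA_norm_char_le _ _) (norm_nonneg _)
        _ ≤ _ := by
            rw [one_mul]
            exact (swk1_S_sub χ).trans (add_le_add (h χ (mem_Nch.mp hχ)) le_rfl)
    rw [sum_const, nsmul_eq_mul] at h4
    rw [← hcardR]
    nlinarith only [hD, h4]
  have h6 : psiA y c a - P / c.totient
      = (1 / (c.totient : ℝ)) * ((c.totient : ℝ) * psiA y c a - P) := by
    field_simp
  rw [h6, abs_mul, abs_of_pos (by positivity : (0 : ℝ) < 1 / (c.totient : ℝ))]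
  calc (1 / (c.totient : ℝ)) * |(c.totient : ℝ) * psiA y c a - P|
      ≤ (1 / (c.totient : ℝ)) * ((c.totient : ℝ) * (E + D)) :=
        mul_le_mul_of_nonneg_left h2 (by positivity)
    _ = E + D := by field_simp

/-- The growth conditions on `x`. -/
theorem swk1_ev (B k : ℕ) (M : ℝ) : ∃ x0 : ℕ, ∀ x : ℕ, x0 ≤ x →
    2 ≤ x ∧ 1 ≤ Real.log x ∧ 2 * 2 ^ B ≤ Real.log x ∧ M ≤ Real.log x ∧
      2 * Real.log x ^ (k + 1) ≤ Real.sqrt x ∧ 4 * (B + 1) * Real.log x ^ (k + 2) ≤ x := by
  have hlog : Filter.Tendsto (fun x : ℕ => Real.log (x : ℝ)) Filter.atTop Filter.atTop :=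
    Real.tendsto_log_atTop.comp tendsto_natCast_atTop_atTop
  have h1 : ∀ᶠ x : ℕ in Filter.atTop, 2 ≤ x := Filter.eventually_ge_atTop 2
  have h2 : ∀ᶠ x : ℕ in Filter.atTop, 1 ≤ Real.log x := hlog.eventually_ge_atTop 1
  have h3 : ∀ᶠ x : ℕ in Filter.atTop, 2 * 2 ^ B ≤ Real.log x := hlog.eventually_ge_atTop _
  have h4 : ∀ᶠ x : ℕ in Filter.atTop, M ≤ Real.log x := hlog.eventually_ge_atTop _
  have hid : ∀ n : ℕ, ∀ e : ℝ, 0 < e → ∀ᶠ t : ℝ in Filter.atTop, Real.log t ^ n ≤ e * t := by
    intro n e he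
    have := (Real.isLittleO_pow_log_id_atTop (n := n)).bound he
    filter_upwards [this, Filter.eventually_ge_atTop (1 : ℝ)] with t ht ht1
    have h0 : 0 ≤ Real.log t := Real.log_nonneg ht1
    rw [Real.norm_of_nonneg (by positivity)] at ht
    simpa [Real.norm_of_nonneg (by linarith only [ht1] : (0 : ℝ) ≤ t)] using ht
  have h5 : ∀ᶠ x : ℕ in Filter.atTop, 2 * Real.log x ^ (k + 1) ≤ Real.sqrt x := by
    have hs : Filter.Tendsto (fun x : ℕ => Real.sqrt (x : ℝ)) Filter.atTop Filter.atTop :=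
      Real.tendsto_sqrt_atTop.comp tendsto_natCast_atTop_atTop
    have := hs.eventually (hid (k + 1) (1 / (2 * 2 ^ (k + 1))) (by positivity))
    filter_upwards [this, h1] with x hx hx1
    have hls : Real.log (Real.sqrt x) = Real.log x / 2 := Real.log_sqrt (Nat.cast_nonneg x)
    rw [hls, div_pow] at hx
    have hp : (0 : ℝ) < 2 ^ (k + 1) := by positivity
    rw [div_le_iff₀ hp] at hx
    have e1 : 1 / (2 * 2 ^ (k + 1)) * Real.sqrt x * (2 : ℝ) ^ (k + 1) = Real.sqrt x / 2 := by
      field_simp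
    rw [e1] at hx
    linarith only [hx]
  have h6 : ∀ᶠ x : ℕ in Filter.atTop, 4 * (B + 1) * Real.log x ^ (k + 2) ≤ x := by
    have hB : (0 : ℝ) < 4 * (B + 1) := by positivity
    have := (tendsto_natCast_atTop_atTop (R := ℝ)).eventually
      (hid (k + 2) (1 / (4 * (B + 1))) (by positivity))
    filter_upwards [this] with x hx
    have := mul_le_mul_of_nonneg_left hx hB.le
    have e1 : 4 * ((B : ℝ) + 1) * (1 / (4 * (B + 1)) * (x : ℝ)) = x := by
      field_simp
    rw [e1] at this
    exact this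
  obtain ⟨x0, hx0⟩ := Filter.eventually_atTop.mp
    (h1.and (h2.and (h3.and (h4.and (h5.and h6)))))
  exact ⟨x0, fun x hx => hx0 x hx⟩

theorem swk1_psi_le (y : ℕ) : ∑ n ∈ Icc 1 y, Lam n ≤ y * Real.log y := by
  calc ∑ n ∈ Icc 1 y, Lam n ≤ ∑ n ∈ Icc 1 y, Real.log y := by
        refine sum_le_sum fun n hn => ?_
        rw [mem_Icc] at hn
        refine (ArithmeticFunction.vonMangoldt_le_log).trans ?_
        exact Real.log_le_log (by exact_mod_cast hn.1) (by exact_mod_cast hn.2)
    _ = y * Real.log y := by simp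

theorem psi_ap (B k : ℕ) : ∃ x0 : ℕ, ∀ x : ℕ, x0 ≤ x → ∀ y : ℕ, y ≤ x → ∀ c : ℕ, 1 ≤ c →
    (c : ℝ) ≤ Real.log x ^ B → ∀ a : ℕ, Nat.Coprime a c →
      |psiA y c a - y / (c.totient : ℝ)| ≤ x / Real.log x ^ k := by
  obtain ⟨C1, hC1, hsw⟩ := siegel_walfisz (B + 1) (k + 1)
  obtain ⟨C2, hC2, hpnt⟩ := pnt (k + 1)
  obtain ⟨x0, hx0⟩ := swk1_ev B k (2 * ((C1 + C2) * 2 ^ (k + 1)))
  refine ⟨x0, fun x hx y hyx c hc hcB a ha => ?_⟩
  obtain ⟨g1, g2, g3, g4, g5, g6⟩ := hx0 x hx
  have hxR : (2 : ℝ) ≤ x := by exact_mod_cast g1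
  have hyxR : (y : ℝ) ≤ x := by exact_mod_cast hyx
  have hφ : 0 < c.totient := Nat.totient_pos.mpr hc
  have hφR : (0 : ℝ) < c.totient := by exact_mod_cast hφ
  have hφ1 : (1 : ℝ) ≤ c.totient := by exact_mod_cast hφ
  have hy0 : (0 : ℝ) ≤ y := Nat.cast_nonneg y
  have hdiv : (y : ℝ) / c.totient ≤ y := div_le_self hy0 hφ1
  have hdiv0 : (0 : ℝ) ≤ (y : ℝ) / c.totient := by positivity
  have hLk : 0 < Real.log x ^ k := by positivity
  by_cases hbig : (y : ℝ) ≤ Real.sqrt x
  · -- trivial bound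
    have hpsi0 : 0 ≤ psiA y c a := sum_nonneg fun _ _ => swk1_Lam_nonneg _
    have hpsi1 : psiA y c a ≤ y * Real.log y := by
      refine le_trans ?_ (swk1_psi_le y)
      exact sum_le_sum_of_subset_of_nonneg (filter_subset _ _) fun _ _ _ => swk1_Lam_nonneg _
    have hlogy : Real.log y ≤ Real.log x := by
      rcases Nat.eq_zero_or_pos y with h | h
      · subst h; simpa using Real.log_natCast_nonneg x
      · exact Real.log_le_log (by exact_mod_cast h) hyxR
    have hs0 : 0 ≤ Real.sqrt x := Real.sqrt_nonneg _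
    have hb1 : psiA y c a ≤ Real.sqrt x * Real.log x := by
      refine hpsi1.trans ?_
      exact mul_le_mul hbig hlogy (Real.log_natCast_nonneg y) hs0
    have hb2 : (y : ℝ) / c.totient ≤ Real.sqrt x * Real.log x := by
      refine (hdiv.trans hbig).trans ?_
      nlinarith only [g2, hbig]
    have hb3 : Real.sqrt x * Real.log x ≤ x / Real.log x ^ k := by
      rw [le_div_iff₀ hLk]
      have e1 : Real.sqrt x * Real.log x * Real.log x ^ k
          = Real.sqrt x * Real.log x ^ (k + 1) := by ring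
      rw [e1]
      have e2 : Real.sqrt x * Real.sqrt x = x := Real.mul_self_sqrt (by positivity)
      have e3 : 0 ≤ Real.log x ^ (k + 1) := by positivity
      nlinarith only [hxR, e2, g5, hbig]
    rw [abs_le]
    constructor <;> linarith only [hpsi0, hb2, hb3, hdiv0, hb1]
  · rw [not_le] at hbig
    have hs1 : (1 : ℝ) ≤ Real.sqrt x := by
      rw [Real.one_le_sqrt]; linarith only [hxR]
    have hy1R : (1 : ℝ) < y := by linarith only [hbig, hs1]
    have hy2 : 2 ≤ y := by
      have : 1 < y := by exact_mod_cast hy1R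
      omega
    have hlogy : Real.log x / 2 ≤ Real.log y := by
      rw [← Real.log_sqrt (by positivity)]
      exact Real.log_le_log (by positivity) hbig.le
    have hlogyx : Real.log y ≤ Real.log x := Real.log_le_log (by linarith only [hbig, hs1]) hyxR
    have hly0 : 0 < Real.log y := by linarith only [g2, hlogy]
    have h2B : (2 : ℝ) ^ B ≤ Real.log y := by linarith only [g3, hlogy]
    have hcy : (c : ℝ) ≤ Real.log y ^ (B + 1) := by
      calc (c : ℝ) ≤ Real.log x ^ B := hcB
        _ ≤ (2 * Real.log y) ^ B := by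
            refine pow_le_pow_left₀ (by linarith only [g2]) (by linarith only [hlogy]) _
        _ = 2 ^ B * Real.log y ^ B := by rw [mul_pow]
        _ ≤ Real.log y * Real.log y ^ B := by
            refine mul_le_mul_of_nonneg_right h2B (by positivity)
        _ = Real.log y ^ (B + 1) := by ring
    set D : ℝ := C1 * y / Real.log y ^ (k + 1) with hD
    have hD0 : 0 ≤ D := by positivity
    have hchar : ∀ χ : DirichletCharacter ℂ c, χ ≠ 1 → ‖swk1S y χ.primitiveCharacter‖ ≤ D := by
      intro χ hχ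
      have : NeZero c := ⟨by omega⟩
      have hcond_dvd : χ.conductor ∣ c := χ.conductor_dvd_level
      have hcond0 : χ.conductor ≠ 0 := by
        intro h0
        rw [h0] at hcond_dvd
        have := Nat.eq_zero_of_zero_dvd hcond_dvd
        omega
      have hcond1 : χ.conductor ≠ 1 := by
        intro h1
        exact hχ ((DirichletCharacter.eq_one_iff_conductor_eq_one (χ := χ)).mpr h1)
      have hcond2 : 2 ≤ χ.conductor := by omega
      have hle : (χ.conductor : ℝ) ≤ Real.log y ^ (B + 1) := by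
        refine le_trans ?_ hcy
        exact_mod_cast Nat.le_of_dvd hc hcond_dvd
      exact hsw χ.conductor hcond2 χ.primitiveCharacter
        χ.primitiveCharacter_isPrimitive y hy2 hle
    have hmain := swk1_main (y := y) hc ha hD0 hchar
    have hp := hpnt y hy2
    have hE : swk1E y c ≤ 2 * Real.log c * Real.log y := swk1E_le (by omega) hc
    have hlogc : Real.log c ≤ B * Real.log x := by
      have h1 : Real.log c ≤ Real.log (Real.log x ^ B) :=
        Real.log_le_log (by exact_mod_cast hc) hcB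
      rw [Real.log_pow] at h1
      have h2 : Real.log (Real.log x) ≤ Real.log x := by
        have := Real.log_le_sub_one_of_pos (by linarith only [g2] : (0 : ℝ) < Real.log x)
        linarith only [this]
      exact h1.trans (mul_le_mul_of_nonneg_left h2 (Nat.cast_nonneg B))
    have hlogc0 : 0 ≤ Real.log c := Real.log_natCast_nonneg c
    have hE2 : swk1E y c ≤ 2 * B * Real.log x ^ 2 := by
      calc swk1E y c ≤ 2 * Real.log c * Real.log y := hE
        _ ≤ 2 * Real.log c * Real.log x := mul_le_mul_of_nonneg_left hlogyx (by positivity)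
        _ ≤ 2 * (B * Real.log x) * Real.log x := by
            refine mul_le_mul_of_nonneg_right ?_ (by linarith only [g2])
            linarith only [hlogc]
        _ = 2 * B * Real.log x ^ 2 := by ring
    have hE3 : swk1E y c ≤ (x / Real.log x ^ k) / 2 := by
      refine hE2.trans ?_
      rw [div_div, le_div_iff₀ (by positivity)]
      have e1 : 2 * B * Real.log x ^ 2 * (Real.log x ^ k * 2)
          = 4 * B * Real.log x ^ (k + 2) := by ring
      rw [e1]
      refine le_trans ?_ g6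
      have : 0 ≤ Real.log x ^ (k + 2) := by positivity
      nlinarith only [this]
    have hsub : |psiA y c a - y / (c.totient : ℝ)| ≤
        |psiA y c a - (∑ n ∈ Icc 1 y, Lam n) / c.totient|
          + |(∑ n ∈ Icc 1 y, Lam n) / c.totient - y / (c.totient : ℝ)| := abs_sub_le _ _ _
    have hp2 : |(∑ n ∈ Icc 1 y, Lam n) / c.totient - y / (c.totient : ℝ)|
        ≤ C2 * y / Real.log y ^ (k + 1) := by
      rw [← sub_div, abs_div, abs_of_pos hφR]
      exact (div_le_self (abs_nonneg _) hφ1).trans hp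
    have hfin : (C1 + C2) * y / Real.log y ^ (k + 1) ≤ (x / Real.log x ^ k) / 2 := by
      have hpow : (Real.log x / 2) ^ (k + 1) ≤ Real.log y ^ (k + 1) :=
        pow_le_pow_left₀ (by linarith only [g2]) hlogy _
      have hpow0 : 0 < (Real.log x / 2) ^ (k + 1) := by
        have : 0 < Real.log x / 2 := by linarith only [g2]
        positivity
      calc (C1 + C2) * y / Real.log y ^ (k + 1)
          ≤ (C1 + C2) * x / (Real.log x / 2) ^ (k + 1) := by
            refine div_le_div₀ (by positivity) ?_ hpow0 hpow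
            exact mul_le_mul_of_nonneg_left hyxR (by positivity)
        _ ≤ (x / Real.log x ^ k) / 2 := by
            rw [div_pow, div_div_eq_mul_div, div_div, div_le_div_iff₀ (by positivity) (by positivity)]
            have e1 : (C1 + C2) * ↑x * 2 ^ (k + 1) * (Real.log ↑x ^ k * 2)
                = (2 * ((C1 + C2) * 2 ^ (k + 1))) * (x * Real.log x ^ k) := by ring
            rw [e1]
            have e2 : (x : ℝ) * Real.log x ^ (k + 1) = Real.log x * (x * Real.log x ^ k) := by ring
            rw [e2]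
            exact mul_le_mul_of_nonneg_right g4 (by positivity)
    have hadd : D + C2 * y / Real.log y ^ (k + 1) = (C1 + C2) * y / Real.log y ^ (k + 1) := by
      rw [hD]; ring
    linarith only [hmain, hE3, hsub, hp2, hfin, hadd]

end Pool.Agent.H91.EHA
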